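import Mathlib
import Pool.Agent.Helper8.Classify.Defs

/-!
# Random words from a correlation system (module CL-R0)
-/

namespace Pool.Agent.Helper8.Classify

open Finset Filter Topology Pool.Agent.Helper8.Dilation Pool.Agent.Helper8.Order

/-- the two ways of writing the sign `(-1) ^ |S ∩ R|` -/
lemma word_chi (S R : Finset ℕ) :
    ∏ s ∈ S, (if s ∈ R then (-1 : ℝ) else 1) = ∏ s ∈ R, (if s ∈ S then (-1 : ℝ) else 1) := by
  rw [← Finset.prod_filter, ← Finset.prod_filter]
  congr 1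
  ext s
  simp [and_comm]

/-- orthogonality of characters -/
lemma word_orth (T S S' : Finset ℕ) (hS : S ⊆ T) (hS' : S' ⊆ T) :
    ∑ R ∈ T.powerset, (∏ s ∈ S, (if s ∈ R then (-1 : ℝ) else 1)) *
      (∏ s ∈ S', (if s ∈ R then (-1 : ℝ) else 1)) = if S = S' then 2 ^ T.card else 0 := by
  have h1 : ∀ R ∈ T.powerset, (∏ s ∈ S, (if s ∈ R then (-1 : ℝ) else 1)) *
      (∏ s ∈ S', (if s ∈ R then (-1 : ℝ) else 1)) =
      ∏ s ∈ R, ((if s ∈ S then (-1 : ℝ) else 1) * (if s ∈ S' then (-1 : ℝ) else 1)) := by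
    intro R _
    rw [word_chi S R, word_chi S' R, Finset.prod_mul_distrib]
  rw [Finset.sum_congr rfl h1, ← Finset.prod_one_add]
  split_ifs with h
  · subst h
    rw [← Finset.prod_const]
    refine Finset.prod_congr rfl fun s _ => ?_
    split_ifs <;> norm_num
  · obtain ⟨s, hs⟩ : ∃ s, ¬ (s ∈ S ↔ s ∈ S') := by
      by_contra hcon
      push Not at hcon
      exact h (Finset.ext hcon)
    have hsT : s ∈ T := by
      by_cases h1 : s ∈ S
      · exact hS h1
      · by_cases h2 : s ∈ S'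
        · exact hS' h2
        · exact absurd (iff_of_false h1 h2) hs
    apply Finset.prod_eq_zero hsT
    by_cases h1 : s ∈ S <;> by_cases h2 : s ∈ S' <;> simp_all

/-- R0: the random words -/
theorem word (σ : ℕ → ℝ) (C : Finset ℕ → ℝ) (hC : DilationSystem σ C) (T : Finset ℕ) :
    ∃ P : Finset ℕ → ℝ, (∀ R ∈ T.powerset, 0 ≤ P R) ∧ ∑ R ∈ T.powerset, P R = 1 ∧
      ∀ S ⊆ T, ∑ R ∈ T.powerset, P R * ∏ s ∈ S, (if s ∈ R then (-1 : ℝ) else 1) = C S := by
  classical
  have h2 : (0 : ℝ) < 2 ^ T.card := by positivity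
  let P : Finset ℕ → ℝ := fun R =>
    (2 ^ T.card)⁻¹ * ∑ S ∈ T.powerset, C S * ∏ s ∈ S, (if s ∈ R then (-1 : ℝ) else 1)
  have key : ∀ S ⊆ T, ∑ R ∈ T.powerset, P R * ∏ s ∈ S, (if s ∈ R then (-1 : ℝ) else 1) = C S := by
    intro S hS
    have : ∀ R ∈ T.powerset, P R * ∏ s ∈ S, (if s ∈ R then (-1 : ℝ) else 1) =
        (2 ^ T.card)⁻¹ * ∑ S' ∈ T.powerset, C S' * ((∏ s ∈ S', (if s ∈ R then (-1 : ℝ) else 1)) *
          ∏ s ∈ S, (if s ∈ R then (-1 : ℝ) else 1)) := by
      intro R _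
      simp only [P]
      rw [mul_assoc, Finset.sum_mul]
      congr 1
      refine Finset.sum_congr rfl fun S' _ => by ring
    rw [Finset.sum_congr rfl this, ← Finset.mul_sum, Finset.sum_comm]
    have h3 : ∀ S' ∈ T.powerset, ∑ R ∈ T.powerset,
        C S' * ((∏ s ∈ S', (if s ∈ R then (-1 : ℝ) else 1)) *
          ∏ s ∈ S, (if s ∈ R then (-1 : ℝ) else 1)) = if S' = S then C S * 2 ^ T.card else 0 := by
      intro S' hS'
      rw [← Finset.mul_sum, word_orth T S' S (Finset.mem_powerset.1 hS') hS]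
      split_ifs with h
      · rw [h]
      · simp
    rw [Finset.sum_congr rfl h3, Finset.sum_ite_eq' T.powerset S,
      if_pos (Finset.mem_powerset.2 hS)]
    field_simp
  refine ⟨P, ?_, ?_, key⟩
  · intro R _
    refine mul_nonneg (by positivity) ?_
    refine hC.pos T (fun s => if s ∈ R then (-1 : ℝ) else 1) fun n => ?_
    by_cases h : n ∈ R <;> simp [h]
  · have := key ∅ (Finset.empty_subset T)
    simpa [hC.empty] using this

end Pool.Agent.Helper8.Classify
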